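import Pool.Agent.H10.GM.Targets2

/-!
# The excluded grid theorem: the step
-/

set_option autoImplicit false

namespace Pool.Agent.H39.GM

open Pool.Agent.H55.GW Pool.Agent.H10.GM Pool.Agent.H8.VR

/-- an injective labelling of `A` extends to `A ∪ D` if there are enough labels -/
theorem ext_label {V : Type} [Finite V] {w : ℕ} (β : V → Fin w) (A : Set V) (hA : Set.InjOn β A)
    (D : Finset V) : (A ∪ (D : Set V)).ncard ≤ w →
      ∃ β₁ : V → Fin w, Set.InjOn β₁ (A ∪ (D : Set V)) ∧ ∀ x ∈ A, β₁ x = β x := by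
  classical
  induction D using Finset.induction_on with
  | empty =>
    intro _
    refine ⟨β, ?_, fun _ _ => rfl⟩
    rw [Finset.coe_empty, Set.union_empty]
    exact hA
  | insert d D hd ih =>
    intro hc
    rw [Finset.coe_insert, Set.union_insert] at hc ⊢
    by_cases hdA : d ∈ A ∪ (D : Set V)
    · rw [Set.insert_eq_of_mem hdA] at hc ⊢
      exact ih hc
    · rw [Set.ncard_insert_of_notMem hdA (Set.toFinite _)] at hc
      obtain ⟨β₁, h1, h2⟩ := ih (by omega)
      have h3 : (β₁ '' (A ∪ (D : Set V))).ncard < (Set.univ : Set (Fin w)).ncard := by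
        rw [Set.InjOn.ncard_image h1, Set.ncard_univ, Nat.card_eq_fintype_card,
          Fintype.card_fin]
        omega
      obtain ⟨c, -, hc'⟩ := Set.exists_mem_notMem_of_ncard_lt_ncard h3 (Set.toFinite _)
      refine ⟨Function.update β₁ d c, ?_, ?_⟩
      · have key : ∀ x ∈ A ∪ (D : Set V), Function.update β₁ d c x = β₁ x := fun x hx =>
          Function.update_of_ne (fun h => hdA (by rw [← h]; exact hx)) _ _
        rintro x (rfl | hx) y (rfl | hy) hxy
        · rfl
        · rw [Function.update_self, key y hy] at hxy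
          exact absurd ⟨y, hy, hxy.symm⟩ hc'
        · rw [Function.update_self, key x hx] at hxy
          exact absurd ⟨x, hx, hxy⟩ hc'
        · rw [key x hx, key y hy] at hxy
          exact h1 hx hy hxy
      · intro x hx
        rw [Function.update_of_ne (fun h => hdA (by rw [← h]; exact Or.inl hx)), h2 x hx]

theorem pf_NLS (hR : T_NLR) (hU : T_NLU) (hA : T_NLA) : T_NLS := by
  classical
  intro V _ E hE w C S hCne hcard hcmp β hβ
  set Bg : Set V := Nb E C ∪ (S ∩ C) with hBg
  -- the labelling of the bag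
  obtain ⟨β₁, hβ₁, hβ₂⟩ : ∃ β₁ : V → Fin w, Set.InjOn β₁ Bg ∧ ∀ x ∈ Nb E C, β₁ x = β x := by
    have h := ext_label β (Nb E C) hβ (Set.toFinite (S ∩ C)).toFinset
    rw [Set.Finite.coe_toFinset] at h
    exact h hcard
  set c₀ : V → Fin (2 ^ w) := fun a => code w (β₁ '' {x | x ∈ Bg ∧ E a x}) with hc₀
  -- the components
  have hcomp : ∀ C', Cmp E C S C' → NLC (2 ^ w) 1 (fun _ => E) C' c₀ := by
    intro C' hC'
    have hsub : Nb E C' ⊆ Bg := hC'.nb_sub hE
    obtain ⟨c', h1, h2⟩ := hcmp C' hC' β₁ (hβ₁.mono hsub)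
    refine hR V (2 ^ w) 1 (fun _ => E) C' c' c₀ id h1 ?_
    intro a ha
    rw [id, h2 a ha]
    have h3 : {x | x ∈ Bg ∧ E a x} = {x | x ∈ Nb E C' ∧ E a x} := by
      ext x
      constructor
      · rintro ⟨hx, hax⟩
        refine ⟨⟨fun hx' => ?_, a, ha, hE a x hax⟩, hax⟩
        have h4 := hC'.sub hx'
        rcases hx with hx | hx
        · exact hx.1 h4.1
        · exact h4.2 hx.1
      · rintro ⟨hx, hax⟩
        exact ⟨hsub hx, hax⟩
    rw [hc₀]
    simp only [h3]
  -- the vertices outside `S`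
  have hbase : (C \ S).Nonempty → NLC (2 ^ w) 1 (fun _ => E) (C \ S) c₀ := by
    rintro ⟨y, hy⟩
    have hfin : {C' : Set V | Cmp E C S C'}.Finite := Set.toFinite _
    have h1 := hU V (2 ^ w) E hE hfin.toFinset c₀ (by
      obtain ⟨C', hC', -⟩ := Cmp.exists (E := E) hy
      exact ⟨C', hfin.mem_toFinset.2 hC'⟩) (fun X hX => hcomp X (hfin.mem_toFinset.1 hX)) (by
      intro X hX Y hY hne
      have hX' : Cmp E C S X := hfin.mem_toFinset.1 hX
      have hY' : Cmp E C S Y := hfin.mem_toFinset.1 hY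
      refine ⟨Set.disjoint_left.2 fun x hx hx' => hne (Cmp.eq_of_mem hE hX' hY' hx hx'), ?_⟩
      rintro ⟨a, ha, b, hb, hab⟩
      exact hne (Cmp.eq_of_mem hE hX' hY' (hX'.absorb ha (hY'.sub hb) hab) hb))
    have h2 : (⋃ X ∈ hfin.toFinset, X) = C \ S := by
      ext x
      simp only [Set.mem_iUnion, Set.Finite.mem_toFinset, Set.mem_ofPred_eq, exists_prop]
      constructor
      · rintro ⟨X, hX, hx⟩
        exact hX.sub hx
      · intro hx
        exact Cmp.exists hx
    rw [h2] at h1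
    exact h1
  -- the vertices of `S`
  have hadd : ∀ D : Finset V, (D : Set V) ⊆ S ∩ C → ((C \ S) ∪ (D : Set V)).Nonempty →
      NLC (2 ^ w) 1 (fun _ => E) ((C \ S) ∪ (D : Set V)) c₀ := by
    intro D
    induction D using Finset.induction_on with
    | empty =>
      intro _ h
      rw [Finset.coe_empty, Set.union_empty] at h ⊢
      exact hbase h
    | insert d D hd ih =>
      intro hD _
      have hdS : d ∈ S ∩ C := hD (by simp)
      have hDS : (D : Set V) ⊆ S ∩ C := fun x hx => hD (by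
        rw [Finset.coe_insert]
        exact Or.inr hx)
      have h1 : (C \ S) ∪ ((insert d D : Finset V) : Set V) = ((C \ S) ∪ (D : Set V)) ∪ {d} := by
        rw [Finset.coe_insert, Set.union_assoc, Set.union_singleton]
      rw [h1]
      rcases Set.eq_empty_or_nonempty ((C \ S) ∪ (D : Set V)) with h2 | h2
      · rw [h2, Set.empty_union]
        exact NLC.pt d c₀
      · refine hA V w E hE Bg _ d β₁ c₀ hβ₁ (Or.inr hdS) ?_ (fun _ _ => rfl) (ih hDS h2)
        rintro (h3 | h3)
        · exact h3.2 hdS.1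
        · exact hd h3
  have hall : NLC (2 ^ w) 1 (fun _ => E) C c₀ := by
    have h := hadd (Set.toFinite (S ∩ C)).toFinset
    rw [Set.Finite.coe_toFinset] at h
    have h1 : (C \ S) ∪ (S ∩ C) = C := by
      ext x
      constructor
      · rintro (hx | hx)
        · exact hx.1
        · exact hx.2
      · intro hx
        by_cases hxS : x ∈ S
        · exact Or.inr ⟨hxS, hx⟩
        · exact Or.inl ⟨hx, hxS⟩
    rw [h1] at h
    exact h (le_refl _) hCne
  refine ⟨fun a => code w (β '' {x | x ∈ Nb E C ∧ E a x}), ?_, fun _ _ => rfl⟩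
  refine hR V (2 ^ w) 1 (fun _ => E) C c₀ _
    (fun p => code w ((code w).symm p ∩ β '' Nb E C)) hall ?_
  intro a _
  have h1 : (β '' {x | x ∈ Nb E C ∧ E a x}) = β₁ '' {x | x ∈ Bg ∧ E a x} ∩ β '' Nb E C := by
    ext y
    constructor
    · rintro ⟨x, ⟨hx, hax⟩, rfl⟩
      exact ⟨⟨x, ⟨Or.inl hx, hax⟩, hβ₂ x hx⟩, x, hx, rfl⟩
    · rintro ⟨⟨x, ⟨hx, hax⟩, rfl⟩, z, hz, hzx⟩
      have h2 : z = x := hβ₁ (Or.inl hz) hx (by rw [hβ₂ z hz, hzx])
      subst h2
      exact ⟨z, ⟨hz, hax⟩, hzx⟩
  simp only [hc₀, Equiv.symm_apply_apply]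
  rw [h1]

end Pool.Agent.H39.GM
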