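import Pool.Agent.H53.GM.Targets3

/-!
# Forbidden patterns which are not connected
-/

set_option autoImplicit false

namespace Pool.Agent.H39.GM

open Pool.Agent.H68.BP Pool.Agent.H58.SF Pool.Agent.H53.GC Pool.Agent.H53.GR Pool.Agent.H53.GM
open Classical

theorem pf_CON (hCMP : Pool.Agent.H53.GM.T_CMP) : Pool.Agent.H53.GM.T_CON := by
  intro τ σ Al L A 𝔸 har hT
  choose comp hconn hcomp using fun D : (Σ n : ℕ, Str τ (Fin n)) => hCMP τ D.1 D.2 har
  let J : Type := (i : Fin L.length) → Fin (comp (L.get i)).length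
  let LL : J → List (Σ n : ℕ, Str τ (Fin n)) :=
    fun j => List.ofFn fun i : Fin L.length => (comp (L.get i)).get (j i)
  have hmem : ∀ (j : J) (i : Fin L.length), (comp (L.get i)).get (j i) ∈ LL j := fun j i =>
    List.mem_ofFn.2 ⟨i, rfl⟩
  have hmem' : ∀ (j : J) (D : Σ n : ℕ, Str τ (Fin n)), D ∈ LL j →
      ∃ i : Fin L.length, (comp (L.get i)).get (j i) = D := fun j D hD => by
    obtain ⟨i, hi⟩ := List.mem_ofFn.1 hD
    exact ⟨i, hi⟩
  have h1 : ∀ (W : Type) (M : Str τ W), Avoids L M → ∃ j : J, Avoids (LL j) M := by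
    intro W M hav
    have h2 : ∀ i : Fin L.length, ∃ k : Fin (comp (L.get i)).length,
        ∀ f : Fin ((comp (L.get i)).get k).1 → W, ¬ IsHom ((comp (L.get i)).get k).2 M f := by
      intro i
      by_contra hcon
      push Not at hcon
      obtain ⟨f, hf⟩ := (hcomp (L.get i) W M).2 fun C hC => by
        obtain ⟨k, hk⟩ := List.get_of_mem hC
        rw [← hk]
        exact hcon k
      exact hav (L.get i) (List.get_mem L i) f hf
    choose k hk using h2
    refine ⟨k, fun D hD f hf => ?_⟩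
    obtain ⟨i, rfl⟩ := hmem' k D hD
    exact hk i f hf
  have h3 : ∀ (W : Type) (M : Str τ W) (j : J), Avoids (LL j) M → Avoids L M := by
    intro W M j hav D hD f hf
    obtain ⟨i, hi⟩ := List.get_of_mem hD
    subst hi
    obtain ⟨g, hg⟩ := (hcomp (L.get i) W M).1 ⟨f, hf⟩ _ (List.get_mem _ (j i))
    exact hav _ (hmem j i) g hg
  have h4 : ∃ j : J, ∀ (n : ℕ) (𝕏 : Str σ (Fin n)), (∃ f, IsHom 𝕏 𝔸 f) →
      ∃ M : Str τ (Fin n), Avoids (LL j) M ∧ Cols Al M 𝕏 := by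
    by_contra hcon
    push Not at hcon
    choose nn X hX hX2 using hcon
    choose f hf using hX
    let W : Type := Σ j : J, Fin (nn j)
    obtain ⟨n, ⟨e⟩⟩ := Finite.exists_equiv_fin W
    let XX : Str σ (Fin n) := fun l z => ∃ (j : J) (w : Fin (σ.ar l) → Fin (nn j)),
      X j l w ∧ ∀ i, z i = e ⟨j, w i⟩
    have hXX : ∃ F, IsHom XX 𝔸 F := by
      refine ⟨fun p => f (e.symm p).1 (e.symm p).2, ?_⟩
      rintro l z ⟨j, w, hw, hz⟩
      have h5 := hf j l w hw
      have h6 : (fun i => f (e.symm (z i)).1 (e.symm (z i)).2) = fun i => f j (w i) := by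
        funext i
        rw [hz i, Equiv.symm_apply_apply]
      rw [h6]
      exact h5
    obtain ⟨M, hM1, hM2⟩ := (hT n XX).1 hXX
    obtain ⟨j, hj⟩ := h1 _ M hM1
    refine hX2 j (fun c z => M c (fun i => e ⟨j, z i⟩)) ?_ ?_
    · intro D hD g hg
      exact hj D hD (fun x => e ⟨j, g x⟩) fun l z hz => hg l z hz
    · intro l w hw
      obtain ⟨c, hc, h, hM⟩ := hM2 l (fun i => e ⟨j, w i⟩) ⟨j, w, hw, fun i => rfl⟩
      exact ⟨c, hc, h, hM⟩
  obtain ⟨j, hj⟩ := h4
  refine ⟨LL j, ?_, ?_⟩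
  · intro D hD
    obtain ⟨i, rfl⟩ := hmem' j D hD
    exact hconn _ _ (List.get_mem _ _)
  · intro n 𝕏
    refine ⟨hj n 𝕏, ?_⟩
    rintro ⟨M, hM1, hM2⟩
    exact (hT n 𝕏).2 ⟨M, h3 _ M j hM1, hM2⟩

end Pool.Agent.H39.GM
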